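import Mathlib

/-! Real power series with infinite radius of convergence, and their asymptotics. -/

open PowerSeries Filter Topology

namespace Pool.Agent.U890.RSA

noncomputable section

/-- infinite radius of convergence -/
def Good (A : PowerSeries ℝ) : Prop :=
  ∀ R : ℝ, 0 ≤ R → Summable (fun n => |coeff n A| * R ^ n)

/-- evaluation -/
def ev (A : PowerSeries ℝ) (x : ℝ) : ℝ := ∑' n, coeff n A * x ^ n

theorem Good.summable {A : PowerSeries ℝ} (h : Good A) (x : ℝ) :
    Summable (fun n => coeff n A * x ^ n) := by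
  have h1 := h |x| (abs_nonneg x)
  refine Summable.of_norm ?_
  refine h1.congr fun n => ?_
  rw [Real.norm_eq_abs, abs_mul, abs_pow]

theorem Good.summable_norm {A : PowerSeries ℝ} (h : Good A) (x : ℝ) :
    Summable (fun n => ‖coeff n A * x ^ n‖) := by
  have h1 := h |x| (abs_nonneg x)
  refine h1.congr fun n => ?_
  rw [Real.norm_eq_abs, abs_mul, abs_pow]

theorem good_of_bdd {A : PowerSeries ℝ}
    (h : ∀ R : ℝ, 1 ≤ R → ∃ K : ℝ, ∀ n, |coeff n A| * R ^ n ≤ K) : Good A := by
  intro R hR
  obtain ⟨K, hK⟩ := h (2 * (R + 1)) (by linarith)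
  have hs : Summable (fun n : ℕ => K * (1 / 2 : ℝ) ^ n) :=
    (summable_geometric_of_lt_one (by norm_num) (by norm_num)).mul_left K
  refine Summable.of_nonneg_of_le (fun n => by positivity) (fun n => ?_) hs
  have h1 := hK n
  have h2 : |coeff n A| * R ^ n ≤ |coeff n A| * (R + 1) ^ n := by
    gcongr
    linarith
  have h3 : |coeff n A| * (2 * (R + 1)) ^ n = |coeff n A| * (R + 1) ^ n * 2 ^ n := by
    rw [mul_pow]; ring
  rw [h3] at h1
  have h4 : (1 / 2 : ℝ) ^ n * 2 ^ n = 1 := by
    rw [← mul_pow]; norm_num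
  have h5 : (0 : ℝ) < 2 ^ n := by positivity
  have h6 : |coeff n A| * (R + 1) ^ n ≤ K * (1 / 2 : ℝ) ^ n := by
    have : |coeff n A| * (R + 1) ^ n = (|coeff n A| * (R + 1) ^ n * 2 ^ n) * (1 / 2 : ℝ) ^ n := by
      rw [mul_assoc _ ((2 : ℝ) ^ n), mul_comm ((2 : ℝ) ^ n), h4, mul_one]
    rw [this]
    gcongr
  linarith

theorem Good.bdd {A : PowerSeries ℝ} (h : Good A) {R : ℝ} (hR : 0 ≤ R) :
    ∃ K : ℝ, 0 ≤ K ∧ ∀ n, |coeff n A| * R ^ n ≤ K := by
  refine ⟨∑' n, |coeff n A| * R ^ n, tsum_nonneg fun n => by positivity, fun n => ?_⟩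
  exact (h R hR).le_tsum n (fun m _ => by positivity)

theorem Good.add {A B : PowerSeries ℝ} (hA : Good A) (hB : Good B) : Good (A + B) := by
  intro R hR
  refine Summable.of_nonneg_of_le (fun n => by positivity) (fun n => ?_) ((hA R hR).add (hB R hR))
  rw [← add_mul, map_add]
  gcongr
  exact abs_add_le _ _

theorem Good.neg {A : PowerSeries ℝ} (hA : Good A) : Good (-A) := by
  intro R hR
  refine (hA R hR).congr fun n => ?_
  rw [map_neg, abs_neg]

theorem Good.sub {A B : PowerSeries ℝ} (hA : Good A) (hB : Good B) : Good (A - B) := by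
  rw [sub_eq_add_neg]; exact hA.add hB.neg

theorem Good.mul {A B : PowerSeries ℝ} (hA : Good A) (hB : Good B) : Good (A * B) := by
  intro R hR
  have h1 : Summable (fun n => ‖|coeff n A| * R ^ n‖) := by
    refine (hA R hR).congr fun n => ?_
    rw [Real.norm_of_nonneg (by positivity)]
  have h2 : Summable (fun n => ‖|coeff n B| * R ^ n‖) := by
    refine (hB R hR).congr fun n => ?_
    rw [Real.norm_of_nonneg (by positivity)]
  have h3 := summable_norm_sum_mul_antidiagonal_of_summable_norm h1 h2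
  refine Summable.of_nonneg_of_le (fun n => by positivity) (fun n => ?_) h3
  rw [PowerSeries.coeff_mul]
  calc |∑ p ∈ Finset.HasAntidiagonal.antidiagonal n, coeff p.1 A * coeff p.2 B| * R ^ n
      ≤ (∑ p ∈ Finset.HasAntidiagonal.antidiagonal n, |coeff p.1 A| * |coeff p.2 B|) * R ^ n := by
        gcongr
        refine (Finset.abs_sum_le_sum_abs _ _).trans (le_of_eq ?_)
        exact Finset.sum_congr rfl fun p _ => abs_mul _ _
    _ = ∑ p ∈ Finset.HasAntidiagonal.antidiagonal n, |coeff p.1 A| * R ^ p.1 * (|coeff p.2 B| * R ^ p.2) := by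
        rw [Finset.sum_mul]
        refine Finset.sum_congr rfl fun p hp => ?_
        rw [Finset.HasAntidiagonal.mem_antidiagonal] at hp
        rw [← hp, pow_add]; ring
    _ ≤ _ := le_abs_self _

theorem good_C (a : ℝ) : Good (C a) := by
  intro R hR
  refine summable_of_ne_finset_zero (s := {0}) fun n hn => ?_
  rw [PowerSeries.coeff_C, if_neg (by simpa using hn)]
  simp

theorem good_X : Good (X : PowerSeries ℝ) := by
  intro R hR
  refine summable_of_ne_finset_zero (s := {1}) fun n hn => ?_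
  rw [PowerSeries.coeff_X, if_neg (by simpa using hn)]
  simp

theorem good_one : Good (1 : PowerSeries ℝ) := by
  have := good_C 1
  rwa [map_one] at this

theorem good_zero : Good (0 : PowerSeries ℝ) := by
  have := good_C 0
  rwa [map_zero] at this

theorem Good.pow {A : PowerSeries ℝ} (hA : Good A) (n : ℕ) : Good (A ^ n) := by
  induction n with
  | zero => rw [pow_zero]; exact good_one
  | succ n ih => rw [pow_succ]; exact ih.mul hA

theorem Good.sum {ι : Type*} (s : Finset ι) {A : ι → PowerSeries ℝ} (hA : ∀ i ∈ s, Good (A i)) :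
    Good (∑ i ∈ s, A i) := by
  classical
  induction s using Finset.induction_on with
  | empty => simpa using good_zero
  | insert a s ha ih =>
    rw [Finset.sum_insert ha]
    exact (hA a (Finset.mem_insert_self a s)).add
      (ih fun i hi => hA i (Finset.mem_insert_of_mem hi))

theorem ev_add {A B : PowerSeries ℝ} (hA : Good A) (hB : Good B) (x : ℝ) :
    ev (A + B) x = ev A x + ev B x := by
  unfold ev
  rw [← (hA.summable x).tsum_add (hB.summable x)]
  refine tsum_congr fun n => ?_
  rw [map_add]; ring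

theorem ev_neg (A : PowerSeries ℝ) (x : ℝ) : ev (-A) x = - ev A x := by
  unfold ev
  rw [← tsum_neg]
  refine tsum_congr fun n => ?_
  rw [map_neg]; ring

theorem ev_sub {A B : PowerSeries ℝ} (hA : Good A) (hB : Good B) (x : ℝ) :
    ev (A - B) x = ev A x - ev B x := by
  rw [sub_eq_add_neg, ev_add hA hB.neg, ev_neg]; ring

theorem ev_mul {A B : PowerSeries ℝ} (hA : Good A) (hB : Good B) (x : ℝ) :
    ev (A * B) x = ev A x * ev B x := by
  unfold ev
  rw [tsum_mul_tsum_eq_tsum_sum_antidiagonal_of_summable_norm (hA.summable_norm x)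
    (hB.summable_norm x)]
  refine tsum_congr fun n => ?_
  rw [PowerSeries.coeff_mul, Finset.sum_mul]
  refine Finset.sum_congr rfl fun p hp => ?_
  rw [Finset.HasAntidiagonal.mem_antidiagonal] at hp
  rw [← hp, pow_add]; ring

theorem ev_C (a x : ℝ) : ev (C a) x = a := by
  unfold ev
  rw [tsum_eq_single 0]
  · simp
  · intro n hn
    rw [PowerSeries.coeff_C, if_neg hn]; simp

theorem ev_X (x : ℝ) : ev (X : PowerSeries ℝ) x = x := by
  unfold ev
  rw [tsum_eq_single 1]
  · simp
  · intro n hn
    rw [PowerSeries.coeff_X, if_neg hn]; simp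

theorem ev_one (x : ℝ) : ev (1 : PowerSeries ℝ) x = 1 := by
  rw [← map_one (C (R := ℝ)), ev_C]

theorem ev_zero (x : ℝ) : ev (0 : PowerSeries ℝ) x = 0 := by
  rw [← map_zero (C (R := ℝ)), ev_C]

theorem ev_pow {A : PowerSeries ℝ} (hA : Good A) (n : ℕ) (x : ℝ) :
    ev (A ^ n) x = (ev A x) ^ n := by
  induction n with
  | zero => rw [pow_zero, pow_zero, ev_one]
  | succ n ih => rw [pow_succ, pow_succ, ev_mul (hA.pow n) hA, ih]

theorem ev_sum {ι : Type*} (s : Finset ι) {A : ι → PowerSeries ℝ} (hA : ∀ i ∈ s, Good (A i))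
    (x : ℝ) : ev (∑ i ∈ s, A i) x = ∑ i ∈ s, ev (A i) x := by
  classical
  induction s using Finset.induction_on with
  | empty => simp [ev_zero]
  | insert a s ha ih =>
    rw [Finset.sum_insert ha, Finset.sum_insert ha,
      ev_add (hA a (Finset.mem_insert_self a s))
        (Good.sum s fun i hi => hA i (Finset.mem_insert_of_mem hi)),
      ih fun i hi => hA i (Finset.mem_insert_of_mem hi)]

theorem ev_at_zero (A : PowerSeries ℝ) : ev A 0 = coeff 0 A := by
  unfold ev
  rw [tsum_eq_single 0]
  · simp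
  · intro n hn
    rw [zero_pow hn, mul_zero]

theorem Good.deriv {A : PowerSeries ℝ} (hA : Good A) : Good (d⁄dX ℝ A) := by
  refine good_of_bdd fun R hR => ?_
  obtain ⟨K, hK0, hK⟩ := hA.bdd (R := 2 * R) (by linarith)
  refine ⟨K, fun n => ?_⟩
  rw [PowerSeries.coeff_derivative, abs_mul, abs_of_nonneg (by positivity : (0 : ℝ) ≤ (n : ℝ) + 1)]
  have h1 := hK (n + 1)
  have h2 : ((n : ℝ) + 1) ≤ 2 ^ (n + 1) := by
    have : n + 1 < 2 ^ (n + 1) := Nat.lt_two_pow_self
    exact_mod_cast this.le
  calc |coeff (n + 1) A| * ((n : ℝ) + 1) * R ^ n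
      ≤ |coeff (n + 1) A| * 2 ^ (n + 1) * R ^ (n + 1) := by
        have h3 : R ^ n ≤ R ^ (n + 1) := pow_le_pow_right₀ hR (Nat.le_succ n)
        gcongr
    _ = |coeff (n + 1) A| * (2 * R) ^ (n + 1) := by rw [mul_pow]; ring
    _ ≤ K := h1

theorem hasDerivAt_ev {A : PowerSeries ℝ} (hA : Good A) (x : ℝ) :
    HasDerivAt (ev A) (ev (d⁄dX ℝ A) x) x := by
  have hS : Summable (fun n : ℕ => |coeff n A| * n * (|x| + 1) ^ (n - 1)) := by
    rw [← summable_nat_add_iff 1]
    refine (hA.deriv (|x| + 1) (by positivity)).congr fun n => ?_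
    rw [PowerSeries.coeff_derivative, abs_mul,
      abs_of_nonneg (by positivity : (0 : ℝ) ≤ (n : ℝ) + 1)]
    push_cast
    rfl
  have key := hasDerivAt_tsum_of_isPreconnected (𝕜 := ℝ) (t := Metric.ball (0 : ℝ) (|x| + 1))
    (g := fun n y => coeff n A * y ^ n) (g' := fun n y => coeff n A * (n * y ^ (n - 1)))
    (y₀ := x) (y := x) hS Metric.isOpen_ball (convex_ball (0 : ℝ) (|x| + 1)).isPreconnected
    (fun n y _ => (hasDerivAt_pow n y).const_mul _)
    (fun n y hy => by
      rw [Metric.mem_ball, dist_zero_right, Real.norm_eq_abs] at hy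
      rw [Real.norm_eq_abs, abs_mul, abs_mul, abs_pow, Nat.abs_cast, mul_assoc]
      gcongr)
    (by simp) (hA.summable x) (by simp)
  have e : (∑' n : ℕ, coeff n A * (n * x ^ (n - 1))) = ev (d⁄dX ℝ A) x := by
    unfold ev
    have hS2 : Summable (fun n : ℕ => coeff n A * (n * x ^ (n - 1))) := by
      refine Summable.of_norm_bounded hS fun n => ?_
      rw [Real.norm_eq_abs, abs_mul, abs_mul, abs_pow, Nat.abs_cast, mul_assoc]
      gcongr
      linarith
    rw [hS2.tsum_eq_zero_add]
    simp only [Nat.cast_zero, zero_mul, mul_zero, zero_add]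
    refine tsum_congr fun n => ?_
    rw [PowerSeries.coeff_derivative]
    push_cast
    ring
  rw [e] at key
  exact key

/-- a power series solution of a linear differential equation with entire coefficients is entire -/
theorem good_of_ode {A F B : PowerSeries ℝ} (hF : Good F) (hB : Good B)
    (h : d⁄dX ℝ A = F * A + B) : Good A := by
  refine good_of_bdd fun R hR => ?_
  have hR0 : 0 ≤ R := by linarith
  set S := ∑' n, |coeff n F| * R ^ n with hSdef
  have hS0 : 0 ≤ S := tsum_nonneg fun n => by positivity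
  obtain ⟨b, hb0, hb⟩ := hB.bdd hR0
  obtain ⟨N, hN⟩ := exists_nat_ge (2 * R * S + 2 * R * b)
  set K := 1 + ∑ m ∈ Finset.range (N + 1), |coeff m A| * R ^ m with hKdef
  have hK1 : 1 ≤ K := by
    have : 0 ≤ ∑ m ∈ Finset.range (N + 1), |coeff m A| * R ^ m :=
      Finset.sum_nonneg fun m _ => by positivity
    linarith
  refine ⟨K, fun n => ?_⟩
  induction n using Nat.strong_induction_on with
  | _ n ih =>
    rcases Nat.lt_or_ge n (N + 1) with hn | hn
    · have : |coeff n A| * R ^ n ≤ ∑ m ∈ Finset.range (N + 1), |coeff m A| * R ^ m :=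
        Finset.single_le_sum (f := fun m => |coeff m A| * R ^ m) (fun m _ => by positivity)
          (Finset.mem_range.mpr hn)
      linarith
    · obtain ⟨m, rfl⟩ : ∃ m, n = m + 1 := ⟨n - 1, by omega⟩
      have h1 := congrArg (coeff m) h
      rw [PowerSeries.coeff_derivative, map_add, PowerSeries.coeff_mul] at h1
      have h2 : |coeff (m + 1) A| * ((m : ℝ) + 1) * R ^ (m + 1) ≤ R * (S * K) + R * b := by
        have e1 : |coeff (m + 1) A| * ((m : ℝ) + 1) =
            |coeff (m + 1) A * ((m : ℝ) + 1)| := by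
          rw [abs_mul, abs_of_nonneg (by positivity : (0 : ℝ) ≤ (m : ℝ) + 1)]
        rw [e1, h1]
        have e2 : |∑ p ∈ Finset.HasAntidiagonal.antidiagonal m, coeff p.1 F * coeff p.2 A + coeff m B| ≤
            (∑ p ∈ Finset.HasAntidiagonal.antidiagonal m, |coeff p.1 F| * |coeff p.2 A|) + |coeff m B| := by
          refine (abs_add_le _ _).trans ?_
          gcongr
          refine (Finset.abs_sum_le_sum_abs _ _).trans (le_of_eq ?_)
          exact Finset.sum_congr rfl fun p _ => abs_mul _ _
        have e3 : (∑ p ∈ Finset.HasAntidiagonal.antidiagonal m, |coeff p.1 F| * |coeff p.2 A|) * R ^ m ≤ S * K := by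
          rw [Finset.sum_mul]
          have e4 : ∀ p ∈ Finset.HasAntidiagonal.antidiagonal m, |coeff p.1 F| * |coeff p.2 A| * R ^ m ≤
              (|coeff p.1 F| * R ^ p.1) * K := by
            intro p hp
            rw [Finset.HasAntidiagonal.mem_antidiagonal] at hp
            have := ih p.2 (by omega)
            calc |coeff p.1 F| * |coeff p.2 A| * R ^ m
                = (|coeff p.1 F| * R ^ p.1) * (|coeff p.2 A| * R ^ p.2) := by
                  rw [← hp, pow_add]; ring
              _ ≤ _ := by gcongr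
          refine (Finset.sum_le_sum e4).trans ?_
          rw [← Finset.sum_mul]
          have e5 : ∑ p ∈ Finset.HasAntidiagonal.antidiagonal m, |coeff p.1 F| * R ^ p.1 =
              ∑ k ∈ Finset.range (m + 1), |coeff k F| * R ^ k := by
            rw [Finset.Nat.sum_antidiagonal_eq_sum_range_succ_mk]
          rw [e5]
          have e6 : ∑ k ∈ Finset.range (m + 1), |coeff k F| * R ^ k ≤ S :=
            (hF R hR0).sum_le_tsum _ (fun k _ => by positivity)
          gcongr
        calc |∑ p ∈ Finset.HasAntidiagonal.antidiagonal m, coeff p.1 F * coeff p.2 A + coeff m B| * R ^ (m + 1)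
            ≤ ((∑ p ∈ Finset.HasAntidiagonal.antidiagonal m, |coeff p.1 F| * |coeff p.2 A|) + |coeff m B|) *
              R ^ (m + 1) := by gcongr
          _ = R * ((∑ p ∈ Finset.HasAntidiagonal.antidiagonal m, |coeff p.1 F| * |coeff p.2 A|) * R ^ m) +
              R * (|coeff m B| * R ^ m) := by rw [pow_succ]; ring
          _ ≤ R * (S * K) + R * b := by
              have := hb m
              gcongr
      have h3 : 2 * R * S + 2 * R * b ≤ (m : ℝ) + 1 := by
        have : (N : ℝ) ≤ (m : ℝ) + 1 := by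
          have : N ≤ m + 1 := by omega
          exact_mod_cast this
        linarith
      have h4 : R * (S * K) + R * b ≤ K * ((m : ℝ) + 1) := by
        have h5 : 0 ≤ R * S := by positivity
        have h6 : 0 ≤ R * b := by positivity
        nlinarith
      have h7 : |coeff (m + 1) A| * R ^ (m + 1) * ((m : ℝ) + 1) ≤ K * ((m : ℝ) + 1) := by
        calc _ = |coeff (m + 1) A| * ((m : ℝ) + 1) * R ^ (m + 1) := by ring
          _ ≤ _ := h2.trans h4
      exact le_of_mul_le_mul_right h7 (by positivity)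

/-- the tails of the coefficient sequence -/
def tail (A : PowerSeries ℝ) : PowerSeries ℝ := PowerSeries.mk fun n => ∑' k, coeff (k + n + 1) A

theorem Good.tail {A : PowerSeries ℝ} (hA : Good A) : Good (tail A) := by
  refine good_of_bdd fun R hR => ?_
  have hR0 : 0 ≤ R := by linarith
  refine ⟨∑' n, |coeff n A| * R ^ n, fun n => ?_⟩
  unfold RSA.tail
  rw [PowerSeries.coeff_mk]
  have h0 : Summable (fun n => |coeff n A| * R ^ n) := hA R hR0
  have h1 : Summable (fun k => |coeff (k + n + 1) A| * R ^ (k + n + 1)) := by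
    have := (summable_nat_add_iff (n + 1)).mpr h0
    refine this.congr fun k => ?_
    rw [add_assoc]
  have h2 : ∀ k, |coeff (k + n + 1) A| * R ^ n ≤ |coeff (k + n + 1) A| * R ^ (k + n + 1) := by
    intro k
    have : R ^ n ≤ R ^ (k + n + 1) := pow_le_pow_right₀ hR (by omega)
    gcongr
  have h3 : Summable (fun k => |coeff (k + n + 1) A| * R ^ n) :=
    Summable.of_nonneg_of_le (fun k => by positivity) h2 h1
  have hRn : (0 : ℝ) < R ^ n := by positivity
  have h4 : Summable (fun k => |coeff (k + n + 1) A|) := by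
    have := h3.mul_right ((R ^ n)⁻¹)
    refine this.congr fun k => ?_
    rw [mul_assoc, mul_inv_cancel₀ hRn.ne', mul_one]
  calc |∑' k, coeff (k + n + 1) A| * R ^ n ≤ (∑' k, |coeff (k + n + 1) A|) * R ^ n := by
        have := norm_tsum_le_tsum_norm (f := fun k => coeff (k + n + 1) A) h4
        simp only [Real.norm_eq_abs] at this
        gcongr
    _ = ∑' k, |coeff (k + n + 1) A| * R ^ n := by rw [tsum_mul_right]
    _ ≤ ∑' k, |coeff (k + n + 1) A| * R ^ (k + n + 1) := h3.tsum_le_tsum h2 h1
    _ ≤ ∑' n, |coeff n A| * R ^ n := by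
        have e : ∑' k, |coeff (k + n + 1) A| * R ^ (k + n + 1) =
            ∑' k, |coeff (k + (n + 1)) A| * R ^ (k + (n + 1)) := by
          refine tsum_congr fun k => ?_
          rw [add_assoc]
        rw [e, ← h0.sum_add_tsum_nat_add (n + 1)]
        have : 0 ≤ ∑ m ∈ Finset.range (n + 1), |coeff m A| * R ^ m :=
          Finset.sum_nonneg fun m _ => by positivity
        linarith

theorem tail_identity {A : PowerSeries ℝ} (hA : Good A) :
    A = C (ev A 1) - (1 - X) * tail A := by
  have hs : Summable (fun n => coeff n A) := by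
    simpa using hA.summable 1
  have hev : ev A 1 = ∑' n, coeff n A := by
    unfold ev; simp
  ext n
  cases n with
  | zero =>
    rw [map_sub, sub_mul, one_mul, map_sub]
    simp only [PowerSeries.coeff_zero_C, PowerSeries.coeff_zero_X_mul, sub_zero]
    unfold tail
    rw [PowerSeries.coeff_mk, hev, hs.tsum_eq_zero_add]
    simp
  | succ n =>
    rw [map_sub, sub_mul, one_mul, map_sub, PowerSeries.coeff_succ_X_mul]
    unfold tail
    rw [PowerSeries.coeff_mk, PowerSeries.coeff_mk, PowerSeries.coeff_C,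
      if_neg (Nat.succ_ne_zero n)]
    have h1 : Summable (fun k => coeff (k + n + 1) A) := by
      have := (summable_nat_add_iff (n + 1)).mpr hs
      refine this.congr fun k => ?_
      rw [add_assoc]
    rw [h1.tsum_eq_zero_add]
    have e : ∑' b, coeff (b + 1 + n + 1) A = ∑' k, coeff (k + (n + 1) + 1) A := by
      refine tsum_congr fun k => ?_
      congr 2; omega
    rw [e]
    simp

theorem ev_tail {A : PowerSeries ℝ} (hA : Good A) : ev (tail A) 1 = ev (d⁄dX ℝ A) 1 := by
  have h : ev (d⁄dX ℝ A) 1 = ev (d⁄dX ℝ (C (ev A 1) - (1 - X) * RSA.tail A)) 1 :=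
    congrArg (fun B => ev (d⁄dX ℝ B) 1) (tail_identity hA)
  rw [h]
  have hT := hA.tail
  have e : d⁄dX ℝ (C (ev A 1) - (1 - X) * tail A) = tail A - (1 - X) * d⁄dX ℝ (tail A) := by
    rw [map_sub, Derivation.leibniz, map_sub]
    simp [PowerSeries.derivative_C, PowerSeries.derivative_X, smul_eq_mul]
    ring
  rw [e, ev_sub hT ((good_one.sub good_X).mul hT.deriv), ev_mul (good_one.sub good_X) hT.deriv,
    ev_sub good_one good_X, ev_one, ev_X]
  ring

theorem Good.tendsto_coeff {A : PowerSeries ℝ} (hA : Good A) :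
    Tendsto (fun n => coeff n A) atTop (𝓝 0) := by
  have hs : Summable (fun n => coeff n A) := by
    simpa using hA.summable 1
  exact hs.tendsto_atTop_zero

/-- the series `1/(1-X)` -/
def u : PowerSeries ℝ := PowerSeries.mk fun _ => 1

theorem u_mul : u * (1 - X) = 1 := PowerSeries.mk_one_mul_one_sub_eq_one ℝ

theorem coeff_u_mul (A : PowerSeries ℝ) (n : ℕ) :
    coeff n (u * A) = ∑ i ∈ Finset.range (n + 1), coeff i A := by
  rw [mul_comm, PowerSeries.coeff_mul, Finset.Nat.sum_antidiagonal_eq_sum_range_succ_mk]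
  refine Finset.sum_congr rfl fun i _ => ?_
  unfold u
  rw [PowerSeries.coeff_mk, mul_one]

theorem coeff_u (n : ℕ) : coeff n u = 1 := by unfold u; rw [PowerSeries.coeff_mk]

theorem coeff_u2 (n : ℕ) : coeff n (u ^ 2) = (n : ℝ) + 1 := by
  rw [pow_two, coeff_u_mul]
  simp only [coeff_u, Finset.sum_const, Finset.card_range, nsmul_eq_mul, mul_one]
  push_cast; ring

theorem coeff_u3 (n : ℕ) : coeff n (u ^ 3) = ((n : ℝ) + 1) * ((n : ℝ) + 2) / 2 := by
  rw [pow_succ', coeff_u_mul]
  simp only [coeff_u2]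
  induction n with
  | zero => simp
  | succ n ih => rw [Finset.sum_range_succ, ih]; push_cast; ring

theorem asym2 {A : PowerSeries ℝ} (hA : Good A) :
    ∃ e : ℕ → ℝ, Tendsto e atTop (𝓝 0) ∧
      ∀ n, coeff n (A * u ^ 2) = ev A 1 * ((n : ℝ) + 1) - ev (d⁄dX ℝ A) 1 + e n := by
  refine ⟨fun n => coeff n (tail (tail A)), hA.tail.tail.tendsto_coeff, fun n => ?_⟩
  have h1 := tail_identity hA
  have h2 := tail_identity hA.tail
  rw [ev_tail hA] at h2
  have h3 : A * u ^ 2 = C (ev A 1) * u ^ 2 - C (ev (d⁄dX ℝ A) 1) * u + tail (tail A) := by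
    linear_combination (u ^ 2) * h1 + (-(u * (u * (1 - X)))) * h2 +
      (C (ev A 1) * 0 - u * (tail A) * 0) * u_mul +
      ((- u * C (ev (d⁄dX ℝ A) 1)) + (u * (1 - X) + 1) * tail (tail A)) * u_mul
  rw [h3, map_add, map_sub, PowerSeries.coeff_C_mul, PowerSeries.coeff_C_mul, coeff_u2, coeff_u]
  ring

theorem asym3 {A : PowerSeries ℝ} (hA : Good A) :
    ∃ (e : ℕ → ℝ) (c : ℝ), Tendsto e atTop (𝓝 0) ∧
      ∀ n, coeff n (A * u ^ 3) = ev A 1 * (((n : ℝ) + 1) * ((n : ℝ) + 2) / 2) -
        ev (d⁄dX ℝ A) 1 * ((n : ℝ) + 1) + c + e n := by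
  obtain ⟨e, he, h⟩ := asym2 hA.tail
  refine ⟨fun n => - e n, ev (d⁄dX ℝ (tail A)) 1, by simpa using he.neg, fun n => ?_⟩
  have h1 := tail_identity hA
  have h3 : A * u ^ 3 = C (ev A 1) * u ^ 3 - tail A * u ^ 2 := by
    linear_combination (u ^ 3) * h1 + (- (u ^ 2) * tail A) * u_mul
  rw [h3, map_sub, PowerSeries.coeff_C_mul, coeff_u3, h n, ev_tail hA]
  ring

end

end Pool.Agent.U890.RSA
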