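import Mathlib

/-! The expectation functional of random sequential adsorption on a finite set of blocks:
block `i` and block `j` are compatible when `i + r ≤ j ∨ j + r ≤ i`. -/

namespace Pool.Agent.U890.RSA

noncomputable section

/-- the blocks of `A` compatible with `i` -/
def rem (r : ℕ) (A : Finset ℕ) (i : ℕ) : Finset ℕ := A.filter fun j => i + r ≤ j ∨ j + r ≤ i

/-- expectation of `f (number of placed blocks)` starting from the set `A` of available blocks,
after `k` steps -/
def Ex (r : ℕ) : ℕ → Finset ℕ → (ℕ → ℝ) → ℝ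
  | 0, _, f => f 0
  | k + 1, A, f => if A = ∅ then f 0 else
      (∑ i ∈ A, Ex r k (rem r A i) (fun c => f (c + 1))) / A.card

variable {r : ℕ}

theorem rem_card_lt (hr : 0 < r) {A : Finset ℕ} {i : ℕ} (hi : i ∈ A) :
    (rem r A i).card < A.card := by
  refine Finset.card_lt_card ⟨Finset.filter_subset _ _, fun h => ?_⟩
  have := h hi
  simp only [rem, Finset.mem_filter] at this
  omega

theorem Ex_empty (k : ℕ) (f : ℕ → ℝ) : Ex r k ∅ f = f 0 := by
  cases k with
  | zero => rfl
  | succ k => simp [Ex]

theorem Ex_stable (hr : 0 < r) : ∀ (k l : ℕ) (A : Finset ℕ) (f : ℕ → ℝ), A.card ≤ k → A.card ≤ l →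
    Ex r k A f = Ex r l A f := by
  intro k
  induction k with
  | zero =>
    intro l A f hk _
    rw [Nat.le_zero, Finset.card_eq_zero] at hk
    subst hk
    rw [Ex_empty, Ex_empty]
  | succ k ih =>
    intro l A f hk hl
    cases l with
    | zero =>
      rw [Nat.le_zero, Finset.card_eq_zero] at hl
      subst hl
      rw [Ex_empty, Ex_empty]
    | succ l =>
      simp only [Ex]
      split_ifs with h
      · rfl
      · congr 1
        refine Finset.sum_congr rfl fun i hi => ?_
        have := rem_card_lt hr hi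
        exact ih l _ _ (by omega) (by omega)

theorem Ex_add (k : ℕ) : ∀ (A : Finset ℕ) (f g : ℕ → ℝ),
    Ex r k A (fun c => f c + g c) = Ex r k A f + Ex r k A g := by
  induction k with
  | zero => intro A f g; rfl
  | succ k ih =>
    intro A f g
    simp only [Ex]
    split_ifs with h
    · rfl
    · rw [← add_div, ← Finset.sum_add_distrib]
      congr 1
      exact Finset.sum_congr rfl fun i _ => ih _ _ _

theorem Ex_mul (k : ℕ) : ∀ (A : Finset ℕ) (a : ℝ) (f : ℕ → ℝ),
    Ex r k A (fun c => a * f c) = a * Ex r k A f := by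
  induction k with
  | zero => intro A a f; rfl
  | succ k ih =>
    intro A a f
    simp only [Ex]
    split_ifs with h
    · rfl
    · rw [mul_div_assoc', Finset.mul_sum]
      congr 1
      exact Finset.sum_congr rfl fun i _ => ih _ _ _

theorem Ex_const (k : ℕ) : ∀ (A : Finset ℕ) (a : ℝ), Ex r k A (fun _ => a) = a := by
  induction k with
  | zero => intro A a; rfl
  | succ k ih =>
    intro A a
    simp only [Ex]
    split_ifs with h
    · rfl
    · simp only [ih, Finset.sum_const, nsmul_eq_mul]
      have : (A.card : ℝ) ≠ 0 := by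
        rw [Nat.cast_ne_zero]
        exact fun h0 => h (Finset.card_eq_zero.mp h0)
      field_simp

theorem Ex_sum {ι : Type*} (k : ℕ) (A : Finset ℕ) (s : Finset ι) (f : ι → ℕ → ℝ) :
    Ex r k A (fun c => ∑ i ∈ s, f i c) = ∑ i ∈ s, Ex r k A (f i) := by
  classical
  induction s using Finset.induction_on with
  | empty => simpa using Ex_const k A 0
  | insert a s ha ih =>
    simp only [Finset.sum_insert ha]
    rw [Ex_add, ih]

/-- the expectation functional with enough steps -/
def E (r : ℕ) (A : Finset ℕ) (f : ℕ → ℝ) : ℝ := Ex r A.card A f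

theorem Ex_eq_E (hr : 0 < r) {k : ℕ} {A : Finset ℕ} (h : A.card ≤ k) (f : ℕ → ℝ) :
    Ex r k A f = E r A f := Ex_stable hr _ _ _ _ h le_rfl

theorem E_unfold (hr : 0 < r) (A : Finset ℕ) (f : ℕ → ℝ) :
    (A.card : ℝ) * E r A f = ∑ i ∈ A, E r (rem r A i) (fun c => f (c + 1)) := by
  rcases A.eq_empty_or_nonempty with rfl | hA
  · simp
  · have hc : 0 < A.card := Finset.card_pos.mpr hA
    obtain ⟨k, hk⟩ : ∃ k, A.card = k + 1 := ⟨A.card - 1, by omega⟩
    have h1 : E r A f = (∑ i ∈ A, Ex r k (rem r A i) (fun c => f (c + 1))) / A.card := by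
      unfold E
      rw [hk]
      simp only [Ex, if_neg hA.ne_empty, hk]
    have h2 : (A.card : ℝ) ≠ 0 := by positivity
    rw [h1, mul_div_cancel₀ _ h2]
    refine Finset.sum_congr rfl fun i hi => ?_
    have := rem_card_lt hr hi
    exact Ex_eq_E hr (by omega) _

theorem E_empty (f : ℕ → ℝ) : E r ∅ f = f 0 := Ex_empty _ _

theorem E_add (A : Finset ℕ) (f g : ℕ → ℝ) :
    E r A (fun c => f c + g c) = E r A f + E r A g := Ex_add _ _ _ _

theorem E_mul (A : Finset ℕ) (a : ℝ) (f : ℕ → ℝ) :
    E r A (fun c => a * f c) = a * E r A f := Ex_mul _ _ _ _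

theorem E_const (A : Finset ℕ) (a : ℝ) : E r A (fun _ => a) = a := Ex_const _ _ _

theorem E_sum {ι : Type*} (A : Finset ℕ) (s : Finset ι) (f : ι → ℕ → ℝ) :
    E r A (fun c => ∑ i ∈ s, f i c) = ∑ i ∈ s, E r A (f i) := Ex_sum _ _ _ _

theorem rem_union (B C : Finset ℕ) (i : ℕ) : rem r (B ∪ C) i = rem r B i ∪ rem r C i :=
  Finset.filter_union _ _ _

/-- independence of two parts without conflicts -/
theorem E_union (hr : 0 < r) : ∀ (n : ℕ) (B C : Finset ℕ) (f : ℕ → ℝ), (B ∪ C).card ≤ n →
    (∀ b ∈ B, ∀ c ∈ C, b + r ≤ c) →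
    E r (B ∪ C) f = E r B (fun b => E r C (fun c => f (b + c))) := by
  intro n
  induction n with
  | zero =>
    intro B C f h _
    rw [Nat.le_zero, Finset.card_eq_zero] at h
    have hB : B = ∅ := Finset.subset_empty.mp (h ▸ Finset.subset_union_left)
    have hC : C = ∅ := Finset.subset_empty.mp (h ▸ Finset.subset_union_right)
    subst hB; subst hC
    simp [E_empty]
  | succ n ih =>
    intro B C f h hBC
    have hdisj : Disjoint B C := by
      rw [Finset.disjoint_left]
      intro x hx hx'
      have := hBC x hx x hx'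
      omega
    rcases (B ∪ C).eq_empty_or_nonempty with h0 | hne
    · exact ih B C f (by rw [h0]; simp) hBC
    · have hpos : 0 < (B ∪ C).card := Finset.card_pos.mpr hne
      have hcard : (B ∪ C).card = B.card + C.card := Finset.card_union_of_disjoint hdisj
      have key : ((B ∪ C).card : ℝ) * E r (B ∪ C) f =
          ((B ∪ C).card : ℝ) * E r B (fun b => E r C (fun c => f (b + c))) := by
        rw [E_unfold hr, Finset.sum_union hdisj]
        have hB : ∀ i ∈ B, rem r (B ∪ C) i = rem r B i ∪ C := by
          intro i hi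
          rw [rem_union]
          congr 1
          exact Finset.filter_true_of_mem fun c hc => Or.inl (hBC i hi c hc)
        have hC : ∀ i ∈ C, rem r (B ∪ C) i = B ∪ rem r C i := by
          intro i hi
          rw [rem_union]
          congr 1
          exact Finset.filter_true_of_mem fun b hb => Or.inr (hBC b hb i hi)
        have s1 : ∑ i ∈ B, E r (rem r (B ∪ C) i) (fun c => f (c + 1)) =
            ∑ i ∈ B, E r (rem r B i) (fun b => E r C (fun c => f (b + 1 + c))) := by
          refine Finset.sum_congr rfl fun i hi => ?_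
          have hlt := rem_card_lt hr (Finset.mem_union_left C hi)
          rw [hB i hi] at hlt ⊢
          rw [ih (rem r B i) C _ (by omega)
            (fun b hb c hc => hBC b (Finset.mem_of_mem_filter b hb) c hc)]
          congr 1; funext b; congr 1; funext c; congr 1; ring
        have s2 : ∑ i ∈ C, E r (rem r (B ∪ C) i) (fun c => f (c + 1)) =
            E r B (fun b => ∑ i ∈ C, E r (rem r C i) (fun c => f (b + (c + 1)))) := by
          rw [E_sum]
          refine Finset.sum_congr rfl fun i hi => ?_
          have hlt := rem_card_lt hr (Finset.mem_union_right B hi)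
          rw [hC i hi] at hlt ⊢
          rw [ih B (rem r C i) _ (by omega)
            (fun b hb c hc => hBC b hb c (Finset.mem_of_mem_filter c hc))]
          rfl
        rw [s1, s2]
        have t1 := E_unfold hr B (fun b => E r C (fun c => f (b + c)))
        have t2 : ∀ b, ∑ i ∈ C, E r (rem r C i) (fun c => f (b + (c + 1))) =
            (C.card : ℝ) * E r C (fun c => f (b + c)) := fun b =>
          (E_unfold hr C (fun c => f (b + c))).symm
        rw [← t1]
        simp only [t2]
        rw [E_mul, hcard]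
        push_cast
        ring
      have h2 : ((B ∪ C).card : ℝ) ≠ 0 := by positivity
      exact mul_left_cancel₀ h2 key

theorem rem_image (A : Finset ℕ) (t i : ℕ) :
    rem r (A.image (· + t)) (i + t) = (rem r A i).image (· + t) := by
  ext j
  simp only [rem, Finset.mem_filter, Finset.mem_image]
  constructor
  · rintro ⟨⟨a, ha, rfl⟩, h⟩
    exact ⟨a, ⟨ha, by omega⟩, rfl⟩
  · rintro ⟨a, ⟨ha, h⟩, rfl⟩
    exact ⟨⟨a, ha, rfl⟩, by omega⟩

theorem Ex_image (t : ℕ) (k : ℕ) : ∀ (A : Finset ℕ) (f : ℕ → ℝ),
    Ex r k (A.image (· + t)) f = Ex r k A f := by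
  induction k with
  | zero => intro A f; rfl
  | succ k ih =>
    intro A f
    simp only [Ex, Finset.image_eq_empty]
    split_ifs with h
    · rfl
    · rw [Finset.card_image_of_injective _ (add_left_injective t),
        Finset.sum_image (fun x _ y _ h => add_left_injective t h)]
      congr 1
      refine Finset.sum_congr rfl fun i _ => ?_
      rw [rem_image, ih]

theorem E_image (t : ℕ) (A : Finset ℕ) (f : ℕ → ℝ) : E r (A.image (· + t)) f = E r A f := by
  unfold E
  rw [Finset.card_image_of_injective _ (add_left_injective t), Ex_image]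

theorem E_Ico (a N : ℕ) (f : ℕ → ℝ) : E r (Finset.Ico a N) f = E r (Finset.range (N - a)) f := by
  have : Finset.Ico a N = (Finset.range (N - a)).image (· + a) := by
    ext x
    simp only [Finset.mem_Ico, Finset.mem_image, Finset.mem_range]
    constructor
    · rintro ⟨h1, h2⟩; exact ⟨x - a, by omega, by omega⟩
    · rintro ⟨y, hy, rfl⟩; omega
  rw [this, E_image]

theorem rem_range {N i : ℕ} (hi : i < N) :
    rem r (Finset.range N) i = Finset.range (i + 1 - r) ∪ Finset.Ico (i + r) N := by
  ext x
  simp only [rem, Finset.mem_filter, Finset.mem_range, Finset.mem_union, Finset.mem_Ico]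
  omega

/-- the splitting recursion on an interval of `N` blocks -/
theorem E_range (hr : 0 < r) (N : ℕ) (f : ℕ → ℝ) :
    (N : ℝ) * E r (Finset.range N) f = ∑ i ∈ Finset.range N,
      E r (Finset.range (i + 1 - r)) (fun b =>
        E r (Finset.range (N - (i + r))) (fun c => f (b + c + 1))) := by
  have h := E_unfold hr (Finset.range N) f
  rw [Finset.card_range] at h
  rw [h]
  refine Finset.sum_congr rfl fun i hi => ?_
  rw [Finset.mem_range] at hi
  rw [rem_range hi, E_union hr _ _ _ _ le_rfl]
  · congr 1; funext b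
    rw [E_Ico]
  · intro b hb c hc
    rw [Finset.mem_range] at hb
    rw [Finset.mem_Ico] at hc
    omega

/-- mean with `N` blocks -/
def g (r N : ℕ) : ℝ := E r (Finset.range N) (fun c => (c : ℝ))

/-- second factorial moment with `N` blocks -/
def h (r N : ℕ) : ℝ := E r (Finset.range N) (fun c => (c : ℝ) * ((c : ℝ) - 1))

theorem g_zero : g r 0 = 0 := by
  unfold g; rw [Finset.range_zero, E_empty]; simp

theorem h_zero : h r 0 = 0 := by
  unfold h; rw [Finset.range_zero, E_empty]; simp

theorem g_rec (hr : 0 < r) (N : ℕ) :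
    (N : ℝ) * g r N = ∑ i ∈ Finset.range N, (g r (i + 1 - r) + g r (N - (i + r)) + 1) := by
  unfold g
  rw [E_range hr]
  refine Finset.sum_congr rfl fun i _ => ?_
  have : ∀ b : ℕ, E r (Finset.range (N - (i + r))) (fun c => (((b + c + 1 : ℕ)) : ℝ)) =
      (b : ℝ) + (E r (Finset.range (N - (i + r))) (fun c => (c : ℝ)) + 1) := by
    intro b
    have e : (fun c : ℕ => (((b + c + 1 : ℕ)) : ℝ)) = fun c : ℕ => (c : ℝ) + ((b : ℝ) + 1) := by
      funext c; push_cast; ring
    rw [e, E_add _ _ (fun _ => (b : ℝ) + 1), E_const]; ring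
  simp only [this]
  rw [E_add _ _ (fun _ => _), E_const]
  ring

theorem h_rec (hr : 0 < r) (N : ℕ) :
    (N : ℝ) * h r N = ∑ i ∈ Finset.range N, (h r (i + 1 - r) + h r (N - (i + r)) +
      2 * (g r (i + 1 - r) * g r (N - (i + r))) + 2 * (g r (i + 1 - r) + g r (N - (i + r)))) := by
  unfold h g
  rw [E_range hr]
  refine Finset.sum_congr rfl fun i _ => ?_
  set G := E r (Finset.range (N - (i + r))) (fun c => (c : ℝ)) with hG
  set H := E r (Finset.range (N - (i + r))) (fun c => (c : ℝ) * ((c : ℝ) - 1)) with hH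
  have h1 : ∀ b : ℕ, E r (Finset.range (N - (i + r)))
      (fun c => (((b + c + 1 : ℕ)) : ℝ) * ((((b + c + 1 : ℕ)) : ℝ) - 1)) =
      ((b : ℝ) * ((b : ℝ) - 1) + (2 * G + 2) * (b : ℝ)) + (H + 2 * G) := by
    intro b
    have e : (fun c : ℕ => (((b + c + 1 : ℕ)) : ℝ) * ((((b + c + 1 : ℕ)) : ℝ) - 1)) =
        fun c : ℕ => ((c : ℝ) * ((c : ℝ) - 1) + (2 * (b : ℝ) + 2) * (c : ℝ)) +
          ((b : ℝ) * ((b : ℝ) - 1) + 2 * (b : ℝ)) := by
      funext c; push_cast; ring
    rw [e, E_add _ _ (fun _ => _), E_const, E_add _ _ (fun c => (2 * (b : ℝ) + 2) * (c : ℝ)),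
      E_mul, ← hG, ← hH]
    ring
  simp only [h1]
  rw [E_add _ _ (fun _ => H + 2 * G), E_const, E_add _ _ (fun b => (2 * G + 2) * (b : ℝ)), E_mul]
  ring

end

end Pool.Agent.U890.RSA
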