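import Mathlib
import Pool.Agent.U890.RSA.Series
import Pool.Agent.U890.RSA.Split

/-! Generating functions of the first two moments, for `r = s + 2`. -/

open PowerSeries Filter Topology

namespace Pool.Agent.U890.RSA

noncomputable section

variable (s : ℕ)

def Gs : PowerSeries ℝ := PowerSeries.mk (g (s + 2))
def Hs : PowerSeries ℝ := PowerSeries.mk (h (s + 2))

theorem coeff_shift {f : ℕ → ℝ} (hf : f 0 = 0) (i : ℕ) :
    coeff i (X ^ (s + 1) * PowerSeries.mk f) = f (i + 1 - (s + 2)) := by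
  rw [PowerSeries.coeff_X_pow_mul']
  split_ifs with hi
  · rw [PowerSeries.coeff_mk]; congr 1; omega
  · rw [show i + 1 - (s + 2) = 0 by omega, hf]

theorem sum_reflect (f : ℕ → ℝ) (N : ℕ) :
    ∑ i ∈ Finset.range (N + 1), f (N + 1 - (i + (s + 2))) =
      ∑ i ∈ Finset.range (N + 1), f (i + 1 - (s + 2)) := by
  rw [← Finset.sum_range_reflect]
  refine Finset.sum_congr rfl fun i hi => ?_
  rw [Finset.mem_range] at hi
  congr 1; omega

theorem ode_G : d⁄dX ℝ (Gs s) = u ^ 2 + 2 * (u * (X ^ (s + 1) * Gs s)) := by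
  ext N
  have h1 := g_rec (r := s + 2) (by omega) (N + 1)
  rw [Finset.sum_add_distrib, Finset.sum_add_distrib, sum_reflect s] at h1
  have h2 : coeff N (2 * (u * (X ^ (s + 1) * Gs s))) =
      2 * ∑ i ∈ Finset.range (N + 1), g (s + 2) (i + 1 - (s + 2)) := by
    rw [show (2 : PowerSeries ℝ) = C 2 by rw [map_ofNat], PowerSeries.coeff_C_mul, coeff_u_mul]
    congr 1
    exact Finset.sum_congr rfl fun i _ => coeff_shift s g_zero i
  rw [map_add, h2, coeff_u2, PowerSeries.coeff_derivative]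
  unfold Gs
  rw [PowerSeries.coeff_mk]
  simp only [Finset.sum_const, Finset.card_range, nsmul_eq_mul, mul_one] at h1
  rw [Nat.cast_succ] at h1
  linarith

theorem ode_H : d⁄dX ℝ (Hs s) = 2 * (u * (X ^ (s + 1) * Hs s)) +
    2 * ((X ^ (s + 1) * Gs s) * (X ^ (s + 1) * Gs s)) + 4 * (u * (X ^ (s + 1) * Gs s)) := by
  ext N
  have h1 := h_rec (r := s + 2) (by omega) (N + 1)
  rw [Finset.sum_add_distrib, Finset.sum_add_distrib, Finset.sum_add_distrib,
    ← Finset.mul_sum, ← Finset.mul_sum, Finset.sum_add_distrib, sum_reflect s, sum_reflect s] at h1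
  have h2 : coeff N (2 * (u * (X ^ (s + 1) * Hs s))) =
      2 * ∑ i ∈ Finset.range (N + 1), h (s + 2) (i + 1 - (s + 2)) := by
    rw [show (2 : PowerSeries ℝ) = C 2 by rw [map_ofNat], PowerSeries.coeff_C_mul, coeff_u_mul]
    congr 1
    exact Finset.sum_congr rfl fun i _ => coeff_shift s h_zero i
  have h3 : coeff N (4 * (u * (X ^ (s + 1) * Gs s))) =
      4 * ∑ i ∈ Finset.range (N + 1), g (s + 2) (i + 1 - (s + 2)) := by
    rw [show (4 : PowerSeries ℝ) = C 4 by rw [map_ofNat], PowerSeries.coeff_C_mul, coeff_u_mul]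
    congr 1
    exact Finset.sum_congr rfl fun i _ => coeff_shift s g_zero i
  have h4 : coeff N (2 * ((X ^ (s + 1) * Gs s) * (X ^ (s + 1) * Gs s))) =
      2 * ∑ i ∈ Finset.range (N + 1), g (s + 2) (i + 1 - (s + 2)) *
        g (s + 2) (N + 1 - (i + (s + 2))) := by
    rw [show (2 : PowerSeries ℝ) = C 2 by rw [map_ofNat], PowerSeries.coeff_C_mul,
      PowerSeries.coeff_mul, Finset.Nat.sum_antidiagonal_eq_sum_range_succ_mk]
    congr 1
    refine Finset.sum_congr rfl fun i hi => ?_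
    rw [Finset.mem_range] at hi
    have e1 := coeff_shift s (g_zero (r := s + 2)) i
    have e2 := coeff_shift s (g_zero (r := s + 2)) (N - i)
    rw [show N - i + 1 - (s + 2) = N + 1 - (i + (s + 2)) by omega] at e2
    unfold Gs
    rw [e1, e2]
  rw [map_add, map_add, h2, h3, h4, PowerSeries.coeff_derivative]
  unfold Hs
  rw [PowerSeries.coeff_mk]
  rw [Nat.cast_succ] at h1
  linarith

/-- `1 + X + ... + X^(r-2)` -/
def P : PowerSeries ℝ := ∑ k ∈ Finset.range (s + 1), X ^ k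

/-- `∑ (r-1-j) X^j` -/
def Rr : PowerSeries ℝ := ∑ j ∈ Finset.range (s + 1), C (((s : ℝ) + 1) - j) * X ^ j

theorem P_mul : (1 - X) * P s = 1 - X ^ (s + 1) := by
  unfold P
  rw [mul_neg_geom_sum]

theorem R_mul : (1 - X) * Rr s = C ((s : ℝ) + 1) - X * P s := by
  unfold Rr P
  induction s with
  | zero => simp
  | succ s ih =>
    have e : ∑ j ∈ Finset.range (s + 1 + 1), C ((((s + 1 : ℕ) : ℝ) + 1) - (j : ℝ)) * X ^ j =
        (∑ j ∈ Finset.range (s + 1), C (((s : ℝ) + 1) - j) * X ^ j) +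
          ∑ j ∈ Finset.range (s + 1 + 1), (X : PowerSeries ℝ) ^ j := by
      rw [Finset.sum_range_succ, Finset.sum_range_succ (fun j => (X : PowerSeries ℝ) ^ j),
        ← add_assoc, ← Finset.sum_add_distrib]
      congr 1
      · refine Finset.sum_congr rfl fun j _ => ?_
        rw [show (((s + 1 : ℕ) : ℝ) + 1) - (j : ℝ) = (((s : ℝ) + 1) - j) + 1 by push_cast; ring,
          map_add, map_one]
        ring
      · rw [show (((s + 1 : ℕ) : ℝ) + 1) - ((s + 1 : ℕ) : ℝ) = 1 by ring, map_one, one_mul]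
    rw [e, mul_add, ih, mul_neg_geom_sum, Finset.sum_range_succ _ (s + 1)]
    rw [show (((s + 1 : ℕ) : ℝ) + 1) = ((s : ℝ) + 1) + 1 by push_cast; ring,
      map_add C ((s : ℝ) + 1) 1, map_one]
    ring

/-- `(1-X)^2 G` -/
def Phi : PowerSeries ℝ := (1 - X) ^ 2 * Gs s

/-- the corrector -/
def D : PowerSeries ℝ :=
  C (1 / 4) * ((1 - X) ^ 2 * (Hs s - 2 * (X ^ (2 * s + 2) * ((1 - X) * Gs s ^ 2))))

theorem deriv_one_sub : d⁄dX ℝ ((1 : PowerSeries ℝ) - X) = -1 := by
  rw [map_sub, PowerSeries.derivative_X]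
  simp

theorem ode_Phi : d⁄dX ℝ (Phi s) = (-2 * P s) * Phi s + 1 := by
  unfold Phi
  rw [Derivation.leibniz, Derivation.leibniz_pow, deriv_one_sub, ode_G]
  simp only [smul_eq_mul, nsmul_eq_mul, Nat.cast_ofNat]
  linear_combination ((1 - X) * u + 1 + 2 * (1 - X) * X ^ (s + 1) * Gs s) * u_mul +
    (2 * (1 - X) * Gs s) * P_mul s

def B2 : PowerSeries ℝ := X ^ (s + 1) * P s * Phi s - X ^ (2 * s + 1) * Rr s * Phi s ^ 2

theorem four_quarter : (4 : PowerSeries ℝ) * C (1 / 4) = 1 := by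
  rw [show (4 : PowerSeries ℝ) = C 4 by rw [map_ofNat], ← map_mul]
  norm_num

theorem ode_D : d⁄dX ℝ (D s) = (-2 * P s) * D s + B2 s := by
  have hd : d⁄dX ℝ (D s) = C (1 / 4) * d⁄dX ℝ ((1 - X) ^ 2 *
      (Hs s - 2 * (X ^ (2 * s + 2) * ((1 - X) * Gs s ^ 2)))) := by
    unfold D
    rw [Derivation.leibniz, PowerSeries.derivative_C]
    simp
  have h2 : d⁄dX ℝ (2 : PowerSeries ℝ) = 0 := by
    rw [show (2 : PowerSeries ℝ) = C 2 by rw [map_ofNat], PowerSeries.derivative_C]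
  have hC : (C ((s : ℝ) + 1) : PowerSeries ℝ) = (s : PowerSeries ℝ) + 1 := by
    rw [map_add, map_one, map_natCast]
  have hR := R_mul s
  rw [hC] at hR
  have key : d⁄dX ℝ ((1 - X) ^ 2 *
      (Hs s - 2 * (X ^ (2 * s + 2) * ((1 - X) * Gs s ^ 2)))) =
      (-2 * P s) * ((1 - X) ^ 2 * (Hs s - 2 * (X ^ (2 * s + 2) * ((1 - X) * Gs s ^ 2)))) +
      4 * B2 s := by
    unfold B2 Phi
    rw [Derivation.leibniz, Derivation.leibniz_pow, deriv_one_sub, map_sub, Derivation.leibniz,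
      Derivation.leibniz, Derivation.leibniz, Derivation.leibniz_pow, Derivation.leibniz_pow,
      deriv_one_sub, ode_G, ode_H, PowerSeries.derivative_X, h2]
    simp only [smul_eq_mul, nsmul_eq_mul, Nat.cast_ofNat, mul_one, mul_zero, add_zero]
    rw [show 2 * s + 2 - 1 = 2 * s + 1 by omega]
    push_cast
    linear_combination (2 * X ^ (s + 1) * (1 - X) * Hs s + 4 * X ^ (s + 1) * (1 - X) * Gs s -
        4 * X ^ (2 * s + 2) * (1 - X) * Gs s * (u * (1 - X) + 1) -
        8 * X ^ (3 * s + 3) * (1 - X) ^ 2 * Gs s ^ 2) * u_mul +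
      (2 * (1 - X) * Hs s - 8 * X ^ (2 * s + 2) * (1 - X) ^ 2 * Gs s ^ 2 -
        4 * X ^ (s + 1) * (1 - X) * Gs s) * P_mul s +
      (4 * X ^ (2 * s + 1) * (1 - X) ^ 3 * Gs s ^ 2) * hR
  rw [hd, key]
  unfold D
  linear_combination (B2 s) * four_quarter

theorem good_P : Good (P s) := Good.sum _ fun k _ => good_X.pow k

theorem good_R : Good (Rr s) := Good.sum _ fun k _ => (good_C _).mul (good_X.pow k)

theorem good_neg2P : Good (-2 * P s) := by
  have : (-2 : PowerSeries ℝ) = C (-2) := by rw [map_neg, map_ofNat]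
  rw [this]
  exact (good_C _).mul (good_P s)

theorem good_Phi : Good (Phi s) := good_of_ode (good_neg2P s) good_one (ode_Phi s)

theorem good_B2 : Good (B2 s) :=
  (((good_X.pow _).mul (good_P s)).mul (good_Phi s)).sub
    (((good_X.pow _).mul (good_R s)).mul ((good_Phi s).pow 2))

theorem good_D : Good (D s) := good_of_ode (good_neg2P s) (good_B2 s) (ode_D s)

theorem G_eq : Gs s = Phi s * u ^ 2 := by
  unfold Phi
  linear_combination (-(u * (1 - X) + 1) * Gs s) * u_mul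

theorem H_eq : Hs s = 2 * (X ^ (2 * s + 2) * (Phi s ^ 2 * u ^ 3)) + 4 * (D s * u ^ 2) := by
  have e1 : (1 - X) * Gs s ^ 2 = Phi s ^ 2 * u ^ 3 := by
    rw [G_eq]
    linear_combination (Phi s ^ 2 * u ^ 3) * u_mul
  have e2 : 4 * (D s * u ^ 2) = Hs s - 2 * (X ^ (2 * s + 2) * ((1 - X) * Gs s ^ 2)) := by
    unfold D
    linear_combination ((1 - X) ^ 2 * (Hs s - 2 * (X ^ (2 * s + 2) * ((1 - X) * Gs s ^ 2))) *
      u ^ 2) * four_quarter + ((Hs s - 2 * (X ^ (2 * s + 2) * ((1 - X) * Gs s ^ 2))) *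
      (u * (1 - X) + 1)) * u_mul
  rw [e2, e1]; ring

end

end Pool.Agent.U890.RSA
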