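import Mathlib
import Pool.Agent.U890.RSA.Gen

/-! Solution of the differential equations and the asymptotics of the variance. -/

open PowerSeries Filter Topology

namespace Pool.Agent.U890.RSA

noncomputable section

/-- `exp(-2 ∑_{k=1}^{r-1} (1 - x^k)/k)` -/
def a (r : ℕ) (x : ℝ) : ℝ := Real.exp (-2 * ∑ k ∈ Finset.Icc 1 (r - 1), (1 - x ^ k) / k)

def L (r : ℕ) (x : ℝ) : ℝ := ∫ t in (0 : ℝ)..x, a r t

def v (r : ℕ) : ℝ := L r 1 ^ 2 - L r 1 + 4 * ∫ x in (0 : ℝ)..1, x ^ (r - 1) * L r x *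
  ((∑ k ∈ Finset.range (r - 1), x ^ k) -
    x ^ (r - 2) * (L r x / a r x) * ∑ j ∈ Finset.range (r - 1), ((r : ℝ) - 1 - j) * x ^ j)

variable (s : ℕ)

theorem sum_Icc (F : ℕ → ℝ) :
    ∑ k ∈ Finset.Icc 1 (s + 1), F k = ∑ k ∈ Finset.range (s + 1), F (k + 1) := by
  rw [Finset.range_eq_Ico, Finset.sum_Ico_add' F 0 (s + 1) 1]
  rfl

theorem ev_P (x : ℝ) : ev (P s) x = ∑ k ∈ Finset.range (s + 1), x ^ k := by
  unfold P
  rw [ev_sum _ fun k _ => good_X.pow k]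
  exact Finset.sum_congr rfl fun k _ => by rw [ev_pow good_X, ev_X]

theorem ev_R (x : ℝ) : ev (Rr s) x = ∑ j ∈ Finset.range (s + 1), (((s : ℝ) + 1) - j) * x ^ j := by
  unfold Rr
  rw [ev_sum _ fun k _ => (good_C _).mul (good_X.pow k)]
  exact Finset.sum_congr rfl fun k _ => by
    rw [ev_mul (good_C _) (good_X.pow k), ev_C, ev_pow good_X, ev_X]

theorem ev_neg2P (x : ℝ) : ev (-2 * P s) x = -2 * ∑ k ∈ Finset.range (s + 1), x ^ k := by
  have : (-2 : PowerSeries ℝ) = C (-2) := by rw [map_neg, map_ofNat]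
  rw [this, ev_mul (good_C _) (good_P s), ev_C, ev_P]

theorem hasDerivAt_a (x : ℝ) : HasDerivAt (a (s + 2))
    (a (s + 2) x * (2 * ∑ k ∈ Finset.range (s + 1), x ^ k)) x := by
  have h1 : ∀ k ∈ Finset.Icc 1 (s + 1), HasDerivAt (fun y : ℝ => (1 - y ^ k) / k)
      (-(x ^ (k - 1))) x := by
    intro k hk
    rw [Finset.mem_Icc] at hk
    have hk0 : (k : ℝ) ≠ 0 := by
      have : 0 < k := by omega
      positivity
    have := ((hasDerivAt_pow k x).const_sub 1).div_const (k : ℝ)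
    refine this.congr_deriv ?_
    rw [neg_div, mul_div_cancel_left₀ _ hk0]
  have h2 := (HasDerivAt.fun_sum h1).const_mul (-2 : ℝ)
  have h3 := h2.exp
  have e : (-2 : ℝ) * ∑ k ∈ Finset.Icc 1 (s + 1), -(x ^ (k - 1)) =
      2 * ∑ k ∈ Finset.range (s + 1), x ^ k := by
    rw [Finset.sum_neg_distrib, sum_Icc s (fun k => x ^ (k - 1))]
    simp
  rw [e] at h3
  exact h3

theorem continuous_a : Continuous (a (s + 2)) :=
  continuous_iff_continuousAt.mpr fun x => (hasDerivAt_a s x).continuousAt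

theorem continuous_ev {A : PowerSeries ℝ} (hA : Good A) : Continuous (ev A) :=
  continuous_iff_continuousAt.mpr fun x => (hasDerivAt_ev hA x).continuousAt

theorem a_one : a (s + 2) 1 = 1 := by
  unfold a; simp

theorem a_pos (x : ℝ) : 0 < a (s + 2) x := Real.exp_pos _

theorem solve {A B : PowerSeries ℝ} (hA : Good A) (hB : Good B) (h0 : coeff 0 A = 0)
    (h : d⁄dX ℝ A = (-2 * P s) * A + B) (x : ℝ) :
    a (s + 2) x * ev A x = ∫ t in (0 : ℝ)..x, a (s + 2) t * ev B t := by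
  have h1 : ∀ t : ℝ, HasDerivAt (fun y => a (s + 2) y * ev A y) (a (s + 2) t * ev B t) t := by
    intro t
    have h2 := (hasDerivAt_a s t).mul (hasDerivAt_ev hA t)
    refine h2.congr_deriv ?_
    rw [h, ev_add ((good_neg2P s).mul hA) hB, ev_mul (good_neg2P s) hA, ev_neg2P]
    ring
  rw [intervalIntegral.integral_eq_sub_of_hasDerivAt (fun t _ => h1 t)
    (((continuous_a s).mul (continuous_ev hB)).intervalIntegrable _ _), ev_at_zero, h0]
  ring

theorem coeff0_G : coeff 0 (Gs s) = 0 := by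
  unfold Gs; rw [PowerSeries.coeff_mk]; exact g_zero

theorem coeff0_H : coeff 0 (Hs s) = 0 := by
  unfold Hs; rw [PowerSeries.coeff_mk]; exact h_zero

theorem coeff0_Phi : coeff 0 (Phi s) = 0 := by
  have h := coeff0_G s
  unfold Phi
  rw [PowerSeries.coeff_zero_eq_constantCoeff_apply] at h ⊢
  rw [map_mul, h, mul_zero]

theorem coeff0_D : coeff 0 (D s) = 0 := by
  have h1 := coeff0_G s
  have h2 := coeff0_H s
  unfold D
  rw [PowerSeries.coeff_zero_eq_constantCoeff_apply] at h1 h2 ⊢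
  rw [map_mul, map_mul, map_sub, map_mul, map_mul, map_mul, map_pow constantCoeff (Gs s), h1, h2]
  simp

theorem ev_Phi (x : ℝ) : ev (Phi s) x = L (s + 2) x / a (s + 2) x := by
  have h := solve s (good_Phi s) good_one (coeff0_Phi s) (ode_Phi s) x
  rw [eq_div_iff (a_pos s x).ne', mul_comm, h]
  unfold L
  simp only [ev_one, mul_one]

theorem ev_Phi_one : ev (Phi s) 1 = L (s + 2) 1 := by
  rw [ev_Phi, a_one, div_one]

theorem ev_dPhi_one : ev (d⁄dX ℝ (Phi s)) 1 = 1 - 2 * ((s : ℝ) + 1) * L (s + 2) 1 := by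
  rw [ode_Phi, ev_add ((good_neg2P s).mul (good_Phi s)) good_one, ev_mul (good_neg2P s) (good_Phi s),
    ev_neg2P, ev_one, ev_Phi_one]
  simp
  ring

theorem ev_D_one : ev (D s) 1 = ∫ x in (0 : ℝ)..1, x ^ (s + 1) * L (s + 2) x *
    ((∑ k ∈ Finset.range (s + 1), x ^ k) -
      x ^ s * (L (s + 2) x / a (s + 2) x) *
        ∑ j ∈ Finset.range (s + 1), (((s : ℝ) + 1) - j) * x ^ j) := by
  have h := solve s (good_D s) (good_B2 s) (coeff0_D s) (ode_D s) 1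
  rw [a_one, one_mul] at h
  rw [h]
  refine intervalIntegral.integral_congr fun x _ => ?_
  have e1 : ev (B2 s) x = x ^ (s + 1) * (∑ k ∈ Finset.range (s + 1), x ^ k) *
      (L (s + 2) x / a (s + 2) x) - x ^ (2 * s + 1) *
      (∑ j ∈ Finset.range (s + 1), (((s : ℝ) + 1) - j) * x ^ j) *
        (L (s + 2) x / a (s + 2) x) ^ 2 := by
    unfold B2
    rw [ev_sub (((good_X.pow _).mul (good_P s)).mul (good_Phi s))
      (((good_X.pow _).mul (good_R s)).mul ((good_Phi s).pow 2)),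
      ev_mul ((good_X.pow _).mul (good_P s)) (good_Phi s), ev_mul (good_X.pow _) (good_P s),
      ev_mul ((good_X.pow _).mul (good_R s)) ((good_Phi s).pow 2),
      ev_mul (good_X.pow _) (good_R s), ev_pow good_X, ev_pow good_X, ev_pow (good_Phi s), ev_X,
      ev_P, ev_R, ev_Phi]
  change a (s + 2) x * ev (B2 s) x = _
  rw [e1]
  have ha := (a_pos s x).ne'
  field_simp
  ring

theorem g_asym : ∃ e : ℕ → ℝ, Tendsto e atTop (𝓝 0) ∧ ∀ N, g (s + 2) N =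
    L (s + 2) 1 * ((N : ℝ) + 1) - (1 - 2 * ((s : ℝ) + 1) * L (s + 2) 1) + e N := by
  obtain ⟨e, he, h⟩ := asym2 (good_Phi s)
  refine ⟨e, he, fun N => ?_⟩
  have h1 := h N
  rw [← G_eq, ev_Phi_one, ev_dPhi_one] at h1
  rw [← h1]
  unfold Gs
  rw [PowerSeries.coeff_mk]

theorem h_asym : ∃ (e : ℕ → ℝ) (c : ℝ), Tendsto e atTop (𝓝 0) ∧ ∀ N, h (s + 2) (N + (2 * s + 2)) =
    2 * (L (s + 2) 1 ^ 2 * (((N : ℝ) + 1) * ((N : ℝ) + 2) / 2) -
      2 * L (s + 2) 1 * (1 - 2 * ((s : ℝ) + 1) * L (s + 2) 1) * ((N : ℝ) + 1)) +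
    4 * (ev (D s) 1 * (N : ℝ)) + c + e N := by
  obtain ⟨e1, c1, he1, h1⟩ := asym3 ((good_Phi s).pow 2)
  obtain ⟨e2, he2, h2⟩ := asym2 (good_D s)
  have hd : ev (d⁄dX ℝ (Phi s ^ 2)) 1 =
      2 * L (s + 2) 1 * (1 - 2 * ((s : ℝ) + 1) * L (s + 2) 1) := by
    rw [Derivation.leibniz_pow]
    simp only [smul_eq_mul, nsmul_eq_mul, Nat.cast_ofNat]
    have : (2 : PowerSeries ℝ) = C 2 := by rw [map_ofNat]
    rw [this, ev_mul (good_C _) (((good_Phi s).pow _).mul (good_Phi s).deriv),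
      ev_mul ((good_Phi s).pow _) (good_Phi s).deriv, ev_C, ev_pow (good_Phi s), ev_Phi_one,
      ev_dPhi_one]
    ring
  refine ⟨fun N => 2 * e1 N + 4 * e2 (N + (2 * s + 2)),
    2 * c1 + 4 * (ev (D s) 1 * ((2 * s + 2 : ℕ) + 1) - ev (d⁄dX ℝ (D s)) 1), ?_, fun N => ?_⟩
  · have h3 := (he1.const_mul 2).add ((he2.comp (tendsto_add_atTop_nat (2 * s + 2))).const_mul 4)
    simpa using h3
  · have h3 : h (s + 2) (N + (2 * s + 2)) = coeff (N + (2 * s + 2)) (Hs s) := by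
      unfold Hs; rw [PowerSeries.coeff_mk]
    have h4 := h1 N
    have h5 := h2 (N + (2 * s + 2))
    rw [hd, ev_pow (good_Phi s), ev_Phi_one] at h4
    rw [h3, H_eq, map_add, show (2 : PowerSeries ℝ) = C 2 by rw [map_ofNat],
      show (4 : PowerSeries ℝ) = C 4 by rw [map_ofNat], PowerSeries.coeff_C_mul,
      PowerSeries.coeff_C_mul, PowerSeries.coeff_X_pow_mul, h4, h5]
    push_cast
    ring

theorem var_asym : Tendsto (fun N : ℕ => (h (s + 2) N + g (s + 2) N - g (s + 2) N ^ 2) / N) atTop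
    (𝓝 (v (s + 2))) := by
  obtain ⟨e1, he1, h1⟩ := g_asym s
  obtain ⟨e2, c, he2, h2⟩ := h_asym s
  set ρ := L (s + 2) 1 with hρ
  set δ := ev (D s) 1 with hδ
  have hv : v (s + 2) = ρ ^ 2 - ρ + 4 * δ := by
    unfold v
    rw [hδ, ev_D_one]
    simp only [show s + 2 - 1 = s + 1 by omega, show s + 2 - 2 = s by omega]
    congr 3
    funext x
    congr 3
    refine Finset.sum_congr rfl fun j _ => ?_
    push_cast; ring
  rw [← tendsto_add_atTop_iff_nat (2 * s + 2)]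
  set K : ℝ := ((2 : ℝ) * s + 2) with hK
  -- explicit form
  have key : ∀ M : ℕ, h (s + 2) (M + (2 * s + 2)) + g (s + 2) (M + (2 * s + 2)) -
      g (s + 2) (M + (2 * s + 2)) ^ 2 = (ρ ^ 2 - ρ + 4 * δ) * ((M : ℝ) + K) +
      (2 * ρ ^ 2 - 4 * ρ * (1 - K * ρ) + c + ρ * (K + 1) - (1 - K * ρ)
        - (ρ * (K + 1) - (1 - K * ρ)) ^ 2 - (ρ ^ 2 - ρ + 4 * δ) * K) +
      (e2 M + e1 (M + (2 * s + 2)) - e1 (M + (2 * s + 2)) ^ 2 +
        2 * (ρ * (K - 1) + 1) * e1 (M + (2 * s + 2)) * 0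
        - 2 * (ρ - (1 - K * ρ)) * e1 (M + (2 * s + 2))) -
      2 * ρ * e1 (M + (2 * s + 2)) * ((M : ℝ) + K) := by
    intro M
    rw [h1, h2]
    have : (2 * ((s : ℝ) + 1)) = K := by rw [hK]; ring
    rw [this]
    push_cast
    rw [show (M : ℝ) + (2 * (s : ℝ) + 2) = (M : ℝ) + K by rw [hK]]
    ring
  have he1' : Tendsto (fun M => e1 (M + (2 * s + 2))) atTop (𝓝 0) :=
    he1.comp (tendsto_add_atTop_nat (2 * s + 2))
  have hinv : Tendsto (fun M : ℕ => ((M : ℝ) + K)⁻¹) atTop (𝓝 0) :=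
    tendsto_inv_atTop_zero.comp (tendsto_atTop_add_const_right _ _ tendsto_natCast_atTop_atTop)
  have hw : Tendsto (fun M => (2 * ρ ^ 2 - 4 * ρ * (1 - K * ρ) + c + ρ * (K + 1) - (1 - K * ρ)
        - (ρ * (K + 1) - (1 - K * ρ)) ^ 2 - (ρ ^ 2 - ρ + 4 * δ) * K) +
      (e2 M + e1 (M + (2 * s + 2)) - e1 (M + (2 * s + 2)) ^ 2 +
        2 * (ρ * (K - 1) + 1) * e1 (M + (2 * s + 2)) * 0
        - 2 * (ρ - (1 - K * ρ)) * e1 (M + (2 * s + 2)))) atTop
      (𝓝 ((2 * ρ ^ 2 - 4 * ρ * (1 - K * ρ) + c + ρ * (K + 1) - (1 - K * ρ)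
        - (ρ * (K + 1) - (1 - K * ρ)) ^ 2 - (ρ ^ 2 - ρ + 4 * δ) * K) +
      (0 + 0 - 0 ^ 2 + 2 * (ρ * (K - 1) + 1) * 0 * 0 - 2 * (ρ - (1 - K * ρ)) * 0))) :=
    (((((he2.add he1').sub (he1'.pow 2)).add ((he1'.const_mul _).mul_const 0)).sub
      (he1'.const_mul _))).const_add _
  have hfin := ((tendsto_const_nhds (x := ρ ^ 2 - ρ + 4 * δ)).add (hw.mul hinv)).sub
    (he1'.const_mul (2 * ρ))
  rw [mul_zero, mul_zero, add_zero, sub_zero, ← hv] at hfin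
  refine hfin.congr fun M => ?_
  have hne : (M : ℝ) + K ≠ 0 := by
    have : (0 : ℝ) < (M : ℝ) + K := by rw [hK]; positivity
    exact this.ne'
  have hc : ((M + (2 * s + 2) : ℕ) : ℝ) = (M : ℝ) + K := by rw [hK]; push_cast; ring
  rw [hc, key, ← hv]
  field_simp
  ring

end

end Pool.Agent.U890.RSA
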